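import Pool.Agent.BEW.StmtsA

set_option autoImplicit false

/-!
# BEW, row APE: the average of a periodic function
-/

namespace Pool.Agent.BEW.H58

open Set Filter Topology MeasureTheory
open Pool.Agent.BEW

theorem ape : ApeStmt := by
  intro f K ω θ T hf hK hω hT
  obtain ⟨hc, hp⟩ := hf
  have hω0 : 0 < ω := by linarith
  have hπ := Real.pi_pos
  have h2π : 0 < 2 * Real.pi := by positivity
  have hK0 : 0 ≤ K := (abs_nonneg _).trans (hK 0)
  have hmn : |mn f| ≤ K := by
    unfold mn
    have h1 : ‖∫ θ in (0 : ℝ)..(2 * Real.pi), f θ‖ ≤ K * |2 * Real.pi - 0| :=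
      intervalIntegral.norm_integral_le_of_norm_le_const fun x _ => hK x
    rw [sub_zero, abs_of_pos h2π, Real.norm_eq_abs] at h1
    rw [abs_mul, abs_of_pos (by positivity : 0 < 1 / (2 * Real.pi))]
    calc 1 / (2 * Real.pi) * |∫ θ in (0 : ℝ)..(2 * Real.pi), f θ| ≤
          1 / (2 * Real.pi) * (K * (2 * Real.pi)) := mul_le_mul_of_nonneg_left h1 (by positivity)
      _ = K := by field_simp
  set g : ℝ → ℝ := fun x => f x - mn f with hg
  have hgc : Continuous g := hc.sub continuous_const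
  have hgp : Function.Periodic g (2 * Real.pi) := by
    intro x
    show f (x + 2 * Real.pi) - mn f = f x - mn f
    rw [hp]
  have hgK : ∀ x, ‖g x‖ ≤ 2 * K := by
    intro x
    rw [Real.norm_eq_abs]
    calc |f x - mn f| ≤ |f x| + |mn f| := abs_sub _ _
      _ ≤ 2 * K := by linarith [hK x]
  have hg0 : ∫ x in (0 : ℝ)..(2 * Real.pi), g x = 0 := by
    rw [hg, intervalIntegral.integral_sub (hc.intervalIntegrable _ _)
      (continuous_const.intervalIntegrable _ _), intervalIntegral.integral_const]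
    unfold mn
    rw [smul_eq_mul, sub_zero, ← mul_assoc, mul_one_div_cancel h2π.ne', one_mul, sub_self]
  -- the substitution
  have h1 : (∫ s in (0 : ℝ)..T, f (ω * s + θ)) - mn f * T =
      ω⁻¹ * ∫ x in θ..(θ + ω * T), g x := by
    have h2 : ∫ s in (0 : ℝ)..T, g (ω * s + θ) = ω⁻¹ * ∫ x in θ..(θ + ω * T), g x := by
      rw [intervalIntegral.integral_comp_mul_add (fun x => g x) hω0.ne' θ, smul_eq_mul, mul_zero,
        zero_add, add_comm (ω * T) θ]
    have hc2 : Continuous fun s : ℝ => f (ω * s + θ) := by fun_prop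
    have h3 : ∫ s in (0 : ℝ)..T, g (ω * s + θ) =
        (∫ s in (0 : ℝ)..T, f (ω * s + θ)) - ∫ _s in (0 : ℝ)..T, mn f :=
      intervalIntegral.integral_sub (hc2.intervalIntegrable _ _)
        (continuous_const.intervalIntegrable _ _)
    rw [← h2, h3, intervalIntegral.integral_const, smul_eq_mul]
    ring
  -- full periods
  set n : ℕ := ⌊ω * T / (2 * Real.pi)⌋₊ with hn
  have hnle : (n : ℝ) * (2 * Real.pi) ≤ ω * T := by
    have h := Nat.floor_le (show 0 ≤ ω * T / (2 * Real.pi) by positivity)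
    rwa [le_div_iff₀ h2π] at h
  have hnlt : ω * T < (n : ℝ) * (2 * Real.pi) + 2 * Real.pi := by
    have h := Nat.lt_floor_add_one (ω * T / (2 * Real.pi))
    rw [div_lt_iff₀ h2π] at h
    calc ω * T < ((n : ℝ) + 1) * (2 * Real.pi) := h
      _ = _ := by ring
  have hper : ∫ x in θ..(θ + n * (2 * Real.pi)), g x = 0 := by
    have h := hgp.intervalIntegral_add_zsmul_eq (n : ℤ) θ (fun a b => hgc.intervalIntegrable a b)
    have h3 := hgp.intervalIntegral_add_eq θ 0
    rw [zero_add, hg0] at h3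
    rw [h3, smul_zero] at h
    simpa using h
  have hsplit : ∫ x in θ..(θ + ω * T), g x =
      ∫ x in (θ + n * (2 * Real.pi))..(θ + ω * T), g x := by
    rw [← intervalIntegral.integral_add_adjacent_intervals
      (hgc.intervalIntegrable θ (θ + n * (2 * Real.pi))) (hgc.intervalIntegrable _ (θ + ω * T)),
      hper, zero_add]
  have h4 : ‖∫ x in (θ + n * (2 * Real.pi))..(θ + ω * T), g x‖ ≤
      2 * K * |θ + ω * T - (θ + n * (2 * Real.pi))| :=
    intervalIntegral.norm_integral_le_of_norm_le_const fun x _ => hgK x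
  have h5 : |θ + ω * T - (θ + n * (2 * Real.pi))| ≤ 2 * Real.pi := by
    rw [abs_of_nonneg (by linarith)]
    linarith
  have h6 : |∫ x in θ..(θ + ω * T), g x| ≤ 4 * Real.pi * K := by
    rw [hsplit, ← Real.norm_eq_abs]
    calc _ ≤ _ := h4
      _ ≤ 2 * K * (2 * Real.pi) := mul_le_mul_of_nonneg_left h5 (by positivity)
      _ = _ := by ring
  rw [h1, abs_mul, abs_of_pos (inv_pos.2 hω0)]
  have h7 : ω⁻¹ ≤ 2 := by
    rw [inv_le_comm₀ hω0 (by norm_num)]
    linarith
  calc ω⁻¹ * |∫ x in θ..(θ + ω * T), g x| ≤ 2 * (4 * Real.pi * K) :=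
        mul_le_mul h7 h6 (abs_nonneg _) (by norm_num)
    _ = 8 * Real.pi * K := by ring

end Pool.Agent.BEW.H58
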